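import Mathlib
import Pool.Agent.Q80.FracLimit

/-!
# `∑ k^s x^k / (k!)^m` is in the Laguerre–Pólya class for all real `s > 0` and all `m ≥ 3`
-/

open Polynomial Filter Topology

namespace Pool.Agent.Results.MP_5e2fde_an.LaguerrePolya

/-- The Laguerre–Pólya class: limits, uniformly on compact subsets of `ℂ`, of (nonzero) real
polynomials all of whose complex zeros are real. -/
def IsLaguerrePolya (φ : ℂ → ℂ) : Prop :=
  ∃ P : ℕ → ℝ[X], (∀ n, P n ≠ 0 ∧ ∀ z : ℂ, aeval z (P n) = 0 → z.im = 0) ∧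
    TendstoLocallyUniformly (fun (n : ℕ) (z : ℂ) => aeval z (P n)) φ atTop

/-- The class `LP⁺`: functions in the Laguerre–Pólya class with nonnegative Taylor coefficients at
the origin. -/
def IsLaguerrePolyaPlus (φ : ℂ → ℂ) : Prop :=
  IsLaguerrePolya φ ∧
    ∃ a : ℕ → ℝ, (∀ k, 0 ≤ a k) ∧ ∀ z : ℂ, HasSum (fun k => (a k : ℂ) * z ^ k) (φ z)

/-- `F_{s,m}(x) = ∑_k k^s x^k / (k!)^m` -/
noncomputable def F (s : ℝ) (m : ℕ) (x : ℂ) : ℂ :=
  ∑' k : ℕ, (((k : ℝ) ^ s / (k.factorial : ℝ) ^ m : ℝ) : ℂ) * x ^ k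

/-- For every real `s > 0` and every integer `m ≥ 3` the function `F_{s,m}` belongs to `LP⁺`; in
particular for every `s > 0` there is `m ≥ 1` (namely `m = 3`) with `F_{s,m}` in `LP⁺`. -/
theorem result :
    (∀ s : ℝ, 0 < s → ∃ m : ℕ, 1 ≤ m ∧ IsLaguerrePolyaPlus (F s m)) ∧
    ∀ s : ℝ, 0 < s → ∀ m : ℕ, 3 ≤ m → IsLaguerrePolyaPlus (F s m) := by
  have key : ∀ s : ℝ, 0 < s → ∀ m : ℕ, 3 ≤ m → IsLaguerrePolyaPlus (F s m) := by
    intro s hs m hm
    obtain ⟨m, rfl⟩ : ∃ j, m = j + 3 := ⟨m - 3, by omega⟩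
    refine ⟨⟨fun n => Q80.RR.happ s m (n + 1), fun n => ?_, ?_⟩, fun k => Q80.RR.cc s m k,
      Q80.RR.cc_nonneg s m, fun z => ?_⟩
    · have h0 := Q80.RR.happ_ne_zero (s := s) m (n := n + 1) (by omega)
      exact ⟨h0, (Q80.RR.happ_onlyReal hs m (n := n + 1) (by omega)).resolve_left h0⟩
    · have h1 := Q80.RR.happ_tendsto hs m
      have h2 : F s (m + 3) = fun z => ∑' k, (Q80.RR.cc s m k : ℂ) * z ^ k := rfl
      rw [h2]
      intro u hu x
      obtain ⟨t, ht, h3⟩ := h1 u hu x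
      refine ⟨t, ht, ?_⟩
      exact (tendsto_add_atTop_nat 1).eventually h3
    · have h1 : Summable fun k => (Q80.RR.cc s m k : ℂ) * z ^ k := by
        refine Summable.of_norm_bounded (Q80.RR.cc_summable hs m ‖z‖ (norm_nonneg _)) fun k => ?_
        rw [norm_mul, norm_pow, Complex.norm_real, Real.norm_eq_abs,
          abs_of_nonneg (Q80.RR.cc_nonneg _ _ _)]
      exact h1.hasSum
  exact ⟨fun s hs => ⟨3, by norm_num, key s hs 3 le_rfl⟩, key⟩

end Pool.Agent.Results.MP_5e2fde_an.LaguerrePolya
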